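import Pool.Agent.Helper65.KG.Goals

/-!
# Project KG (MP_20ee5e_ag), packet RY: rays
-/

set_option autoImplicit false

open MeasureTheory Set

namespace Pool.Agent.Helper30.KG.RY

open Pool.Agent.Helper70.KN Pool.Agent.Helper65.KG

variable {N : ℕ}

theorem dt_pv (w z : Fin N → ℝ) (t : ℝ) (v : Fin N → ℕ) :
    dt w (pv z t v) = dt w z + t * dt w (cv v) := by
  unfold dt pv cv
  rw [Finset.mul_sum, ← Finset.sum_add_distrib]
  exact Finset.sum_congr rfl fun j _ => by ring

theorem t (hCT : S_CT) : S_RY := by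
  intro N V c hN hT z v hv hg
  obtain ⟨hat, hle, -⟩ := pRH N V (Lc V c) (1 / c) (hCT N V c hN hT)
  obtain ⟨w0, hw0, e0⟩ := hat (pv z 1 v)
  rw [dt_pv, hg, one_mul] at e0
  have a1 := hle z w0 hw0
  have a2 : 1 ≤ dt w0 (cv v) := hw0.2 v hv
  have b1 : dt w0 z = rho (Lc V c) z := by linarith
  have b2 : dt w0 (cv v) = 1 := by linarith
  intro t ht
  have key : ∀ w ∈ Lc V c, rho (Lc V c) z + t ≤ dt w (pv z t v) := by
    intro w hw
    rw [dt_pv]
    have c1 := hle z w hw
    have c2 : 1 ≤ dt w (cv v) := hw.2 v hv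
    nlinarith
  have hup : rho (Lc V c) (pv z t v) ≤ rho (Lc V c) z + t := by
    have h := hle (pv z t v) w0 hw0
    rw [dt_pv, b1, b2, mul_one] at h
    exact h
  have hlo : rho (Lc V c) z + t ≤ rho (Lc V c) (pv z t v) := by
    obtain ⟨w, hw, ew⟩ := hat (pv z t v)
    rw [← ew]
    exact key w hw
  have heq : rho (Lc V c) (pv z t v) = rho (Lc V c) z + t := le_antisymm hup hlo
  refine ⟨heq, fun htp w hw ew => ?_⟩
  rw [heq, dt_pv] at ew
  have c1 := hle z w hw
  have c2 : 1 ≤ dt w (cv v) := hw.2 v hv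
  have c3 : t * 1 ≤ t * dt w (cv v) := mul_le_mul_of_nonneg_left c2 ht
  refine ⟨by linarith, ?_⟩
  have c4 : t * dt w (cv v) = t * 1 := by linarith
  exact mul_left_cancel₀ htp.ne' c4

end Pool.Agent.Helper30.KG.RY
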